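import Mathlib

/-!
# Agreement of points of the Cantor space up to a level, and limits of binary schemes
-/

namespace Pool.Agent.Lib.MP_a78e1f_lc.H35

/-- The Cantor space. -/
abbrev Cs : Type := ℕ → Bool

/-- `x` and `y` have the same first `n` digits. -/
def Agr (n : ℕ) (x y : Cs) : Prop := ∀ i, i < n → x i = y i

theorem Agr.refl (n : ℕ) (x : Cs) : Agr n x x := fun _ _ => rfl

theorem Agr.symm {n : ℕ} {x y : Cs} (h : Agr n x y) : Agr n y x := fun i hi => (h i hi).symm

theorem Agr.trans {n : ℕ} {x y z : Cs} (h : Agr n x y) (h' : Agr n y z) : Agr n x z :=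
  fun i hi => (h i hi).trans (h' i hi)

theorem Agr.mono {m n : ℕ} (hmn : m ≤ n) {x y : Cs} (h : Agr n x y) : Agr m x y :=
  fun i hi => h i (lt_of_lt_of_le hi hmn)

theorem eq_of_agr {x y : Cs} (h : ∀ n, Agr n x y) : x = y :=
  funext fun i => h (i + 1) i (Nat.lt_succ_self i)

theorem isClopen_agr (n : ℕ) {X : Type*} [TopologicalSpace X] {f g : X → Cs}
    (hf : Continuous f) (hg : Continuous g) : IsClopen {x | Agr n (f x) (g x)} := by
  have : {x | Agr n (f x) (g x)} = ⋂ i ∈ Finset.range n, {x | f x i = g x i} := by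
    ext x
    simp [Agr]
  rw [this]
  refine Set.Finite.isClopen_biInter (Finset.finite_toSet _) ?_
  intro i _
  have h1 : Continuous (fun x => (f x i, g x i)) :=
    ((continuous_apply i).comp hf).prodMk ((continuous_apply i).comp hg)
  exact (isClopen_discrete {p : Bool × Bool | p.1 = p.2}).preimage h1

/-- Extension of a finite sequence by `false`. -/
def ext0 {n : ℕ} (s : Fin n → Bool) : Cs := fun i => if h : i < n then s ⟨i, h⟩ else false

/-- Restriction to the first `n` digits. -/
def res (n : ℕ) (x : Cs) : Fin n → Bool := fun i => x i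

theorem agr_iff_res {n : ℕ} {x y : Cs} : Agr n x y ↔ res n x = res n y := by
  constructor
  · intro h
    funext i
    exact h i i.2
  · intro h i hi
    exact congrFun h ⟨i, hi⟩

theorem agr_ext0_res (n : ℕ) (x : Cs) : Agr n (ext0 (res n x)) x := by
  intro i hi
  simp [ext0, res, hi]

theorem res_ext0 {n : ℕ} (s : Fin n → Bool) : res n (ext0 s) = s := by
  funext i
  simp [ext0, res]

theorem init_res (n : ℕ) (x : Cs) : Fin.init (res (n + 1) x) = res n x := rfl

theorem isOpen_iff_agr {U : Set Cs} : IsOpen U ↔ ∀ x ∈ U, ∃ n, ∀ y, Agr n y x → y ∈ U := by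
  constructor
  · intro hU x hx
    have := isOpen_pi_iff.1 hU x hx
    obtain ⟨I, u, hu, hsub⟩ := this
    refine ⟨I.sup id + 1, fun y hy => hsub ?_⟩
    intro i hi
    have : y i = x i := hy i (Nat.lt_succ_of_le (Finset.le_sup (f := id) hi))
    rw [this]
    exact (hu i hi).2
  · intro h
    rw [isOpen_iff_forall_mem_open]
    intro x hx
    obtain ⟨n, hn⟩ := h x hx
    refine ⟨{y | Agr n y x}, fun y hy => hn y hy, ?_, Agr.refl n x⟩
    exact (isClopen_agr n continuous_id continuous_const).isOpen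

theorem continuous_iff_agr {f : Cs → Cs} :
    Continuous f ↔ ∀ x n, ∃ m, ∀ y, Agr m y x → Agr n (f y) (f x) := by
  constructor
  · intro hf x n
    have hop : IsOpen {y | Agr n (f y) (f x)} := (isClopen_agr n hf continuous_const).isOpen
    exact isOpen_iff_agr.1 hop x (Agr.refl n _)
  · intro h
    refine continuous_def.2 fun U hU => ?_
    rw [isOpen_iff_agr]
    intro x hx
    obtain ⟨n, hn⟩ := isOpen_iff_agr.1 hU (f x) hx
    obtain ⟨m, hm⟩ := h x n
    exact ⟨m, fun y hy => hn _ (hm y hy)⟩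

/-- Limit map of a binary scheme of points: if the node of level `k + 1` agrees with its parent
up to `N k`, there is a continuous limit map. -/
theorem scheme_limit (N : ℕ → ℕ) (hN : ∀ k, k ≤ N k) (hmono : Monotone N)
    (U : ∀ k : ℕ, (Fin k → Bool) → Cs)
    (hU : ∀ k (σ : Fin (k + 1) → Bool), Agr (N k) (U (k + 1) σ) (U k (Fin.init σ))) :
    ∃ X : Cs → Cs, Continuous X ∧ ∀ y k, Agr (N k) (X y) (U k (res k y)) := by
  have key : ∀ (y : Cs) (k l : ℕ), k ≤ l → Agr (N k) (U l (res l y)) (U k (res k y)) := by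
    intro y k l hkl
    induction l, hkl using Nat.le_induction with
    | base => exact Agr.refl _ _
    | succ l hkl ih =>
      refine Agr.trans (Agr.mono (hmono hkl) ?_) ih
      have := hU l (res (l + 1) y)
      rwa [init_res] at this
  let X : Cs → Cs := fun y i => U (i + 1) (res (i + 1) y) i
  have hX : ∀ y k, Agr (N k) (X y) (U k (res k y)) := by
    intro y k i hi
    change U (i + 1) (res (i + 1) y) i = U k (res k y) i
    rcases le_total k (i + 1) with h | h
    · exact key y k (i + 1) h i hi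
    · exact (key y (i + 1) k h i (lt_of_lt_of_le (Nat.lt_succ_self i) (hN (i + 1)))).symm
  refine ⟨X, ?_, hX⟩
  rw [continuous_iff_agr]
  intro x n
  refine ⟨n, fun y hy => ?_⟩
  have h1 := (hX y n).mono (hN n)
  have h2 := (hX x n).mono (hN n)
  have h3 : res n y = res n x := agr_iff_res.1 hy
  rw [h3] at h1
  exact h1.trans h2.symm

/-- Uniform continuity in terms of agreement. -/
theorem exists_modulus {g : Cs → Cs} (hg : Continuous g) (n : ℕ) :
    ∃ m, ∀ x y, Agr m x y → Agr n (g x) (g y) := by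
  by_contra hcon
  push Not at hcon
  let F : ℕ → Set (Cs × Cs) := fun m => {p | Agr m p.1 p.2} ∩ {p | Agr n (g p.1) (g p.2)}ᶜ
  have hF : ∀ m, IsClosed (F m) := fun m =>
    ((isClopen_agr m continuous_fst continuous_snd).isClosed).inter
      (isClopen_agr n (hg.comp continuous_fst) (hg.comp continuous_snd)).compl.isClosed
  have hne : ∀ m, (F m).Nonempty := by
    intro m
    obtain ⟨x, y, h1, h2⟩ := hcon m
    exact ⟨(x, y), h1, h2⟩
  have hdec : ∀ m, F (m + 1) ⊆ F m := fun m p hp => ⟨Agr.mono (Nat.le_succ m) hp.1, hp.2⟩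
  obtain ⟨p, hp⟩ := IsCompact.nonempty_iInter_of_sequence_nonempty_isCompact_isClosed F hdec hne
    (hF 0).isCompact hF
  have h1 : p.1 = p.2 := eq_of_agr fun m => (Set.mem_iInter.1 hp m).1
  apply (Set.mem_iInter.1 hp 0).2
  rw [Set.mem_ofPred_eq, h1]
  exact Agr.refl _ _

/-- Uniform injectivity in terms of agreement. -/
theorem exists_inv_modulus {g : Cs → Cs} (hg : Continuous g) (hinj : Function.Injective g)
    (n : ℕ) : ∃ m, ∀ x y, Agr m (g x) (g y) → Agr n x y := by
  by_contra hcon
  push Not at hcon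
  let F : ℕ → Set (Cs × Cs) := fun m => {p | Agr m (g p.1) (g p.2)} ∩ {p | Agr n p.1 p.2}ᶜ
  have hF : ∀ m, IsClosed (F m) := fun m =>
    ((isClopen_agr m (hg.comp continuous_fst) (hg.comp continuous_snd)).isClosed).inter
      (isClopen_agr n continuous_fst continuous_snd).compl.isClosed
  have hne : ∀ m, (F m).Nonempty := by
    intro m
    obtain ⟨x, y, h1, h2⟩ := hcon m
    exact ⟨(x, y), h1, h2⟩
  have hdec : ∀ m, F (m + 1) ⊆ F m := fun m p hp => ⟨Agr.mono (Nat.le_succ m) hp.1, hp.2⟩
  obtain ⟨p, hp⟩ := IsCompact.nonempty_iInter_of_sequence_nonempty_isCompact_isClosed F hdec hne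
    (hF 0).isCompact hF
  have h1 : g p.1 = g p.2 := eq_of_agr fun m => (Set.mem_iInter.1 hp m).1
  apply (Set.mem_iInter.1 hp 0).2
  rw [Set.mem_ofPred_eq, hinj h1]
  exact Agr.refl _ _

end Pool.Agent.Lib.MP_a78e1f_lc.H35
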