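import Mathlib

/-!
# From a cofinal family of null sets to slaloms
-/

open MeasureTheory Topology Set Filter
open scoped ENNReal unitInterval

namespace Pool.Agent.Lib.MP_a78e1f_lc.H35

/-- The category half. -/
theorem baire_part {Y : Type} [TopologicalSpace Y] [PolishSpace Y] [MeasurableSpace Y]
    [BorelSpace Y] (P : Measure Y) [IsProbabilityMeasure P] (G : ℕ → ℕ → Set Y)
    (hG : ∀ n i, IsOpen (G n i)) (H : Set Y) (hH : P H = 0) :
    ∃ K : ℕ → Set Y, (∀ j, P (K j) ≠ 0) ∧ ∀ f : ℕ → ℕ,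
      {x | ∃ᶠ n in atTop, x ∈ G n (f n)} ⊆ H →
        ∃ j m, ∀ n, m ≤ n → P (K j ∩ G n (f n)) = 0 := by
  classical
  -- a closed set of positive measure disjoint from `H`
  obtain ⟨C, hCH, hC, hPC⟩ : ∃ C : Set Y, Disjoint C H ∧ IsClosed C ∧ P C ≠ 0 := by
    have hm : MeasurableSet (toMeasurable P H)ᶜ := (measurableSet_toMeasurable P H).compl
    have h1 : P (toMeasurable P H)ᶜ = 1 := by
      rw [prob_compl_eq_one_iff (measurableSet_toMeasurable P H), measure_toMeasurable, hH]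
    obtain ⟨F, hF, hFc, hF0⟩ := hm.exists_lt_isClosed_of_ne_top (measure_ne_top P _)
      (show 0 < P (toMeasurable P H)ᶜ by rw [h1]; exact zero_lt_one)
    refine ⟨F, ?_, hFc, hF0.ne'⟩
    rw [Set.disjoint_left]
    intro x hx hxH
    exact hF hx (subset_toMeasurable P H hxH)
  set B := TopologicalSpace.countableBasis Y with hB
  have hBc : B.Countable := TopologicalSpace.countable_countableBasis Y
  have hBb : TopologicalSpace.IsTopologicalBasis B := TopologicalSpace.isBasis_countableBasis Y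
  set D : Set Y := ⋃ s ∈ {s ∈ B | P (C ∩ s) = 0}, s with hD
  have hDo : IsOpen D := isOpen_biUnion fun s hs => hBb.isOpen hs.1
  have hCD : P (C ∩ D) = 0 := by
    have h1 : C ∩ D = ⋃ s ∈ {s ∈ B | P (C ∩ s) = 0}, C ∩ s := by
      rw [hD, Set.inter_iUnion₂]
    rw [h1]
    exact (measure_biUnion_null_iff (hBc.mono (Set.sep_subset _ _))).2 fun s hs => hs.2
  set C' : Set Y := C \ D with hC'
  have hC'c : IsClosed C' := hC.sdiff hDo
  have hPC' : P C' ≠ 0 := by
    intro h0
    apply hPC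
    have : C ⊆ C' ∪ (C ∩ D) := by
      intro x hx
      by_cases hxD : x ∈ D
      · exact Or.inr ⟨hx, hxD⟩
      · exact Or.inl ⟨hx, hxD⟩
    exact measure_mono_null this (measure_union_null h0 hCD)
  have hC'ne : C'.Nonempty := nonempty_of_measure_ne_zero hPC'
  -- enumeration of the basic open sets meeting `C` in positive measure
  set B' : Set (Set Y) := {s | ∃ t ∈ B, s = C ∩ t ∧ P (C ∩ t) ≠ 0} ∪ {C} with hB'
  have hB'c : B'.Countable := by
    refine Set.Countable.union ?_ (Set.countable_singleton _)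
    refine (hBc.image (fun t => C ∩ t)).mono ?_
    rintro s ⟨t, ht, rfl, -⟩
    exact ⟨t, ht, rfl⟩
  have hB'ne : B'.Nonempty := ⟨C, Or.inr rfl⟩
  obtain ⟨K, hK⟩ := hB'c.exists_eq_range hB'ne
  refine ⟨K, ?_, ?_⟩
  · intro j
    have : K j ∈ B' := by rw [hK]; exact ⟨j, rfl⟩
    rcases this with ⟨t, -, h1, h2⟩ | h1
    · rw [h1]; exact h2
    · rw [Set.mem_singleton_iff] at h1
      rw [h1]; exact hPC
  · intro f hf
    have hpol : PolishSpace C' := hC'c.polishSpace
    have hne : Nonempty C' := hC'ne.to_subtype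
    set U : ℕ → Set C' := fun m => ⋃ n ∈ Set.Ici m, (Subtype.val ⁻¹' (G n (f n)) : Set C') with hU
    have hUo : ∀ m, IsOpen (U m) := fun m =>
      isOpen_biUnion fun n _ => (hG n (f n)).preimage continuous_subtype_val
    have hnd : ∃ m, ¬ Dense (U m) := by
      by_contra hcon
      push Not at hcon
      have hd := dense_iInter_of_isOpen_nat hUo hcon
      obtain ⟨x, hx⟩ := hd.nonempty
      have hxH : (x : Y) ∈ H := by
        apply hf
        rw [Set.mem_ofPred_eq, frequently_atTop]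
        intro m
        have := Set.mem_iInter.1 hx m
        simp only [hU, Set.mem_iUnion, Set.mem_Ici, exists_prop, Set.mem_preimage] at this
        exact this
      exact (Set.disjoint_left.1 hCH) x.2.1 hxH
    obtain ⟨m, hm⟩ := hnd
    rw [dense_iff_inter_open] at hm
    push Not at hm
    obtain ⟨V, hV, ⟨x, hxV⟩, hVU⟩ := hm
    obtain ⟨W, hW, rfl⟩ := isOpen_induced_iff.1 hV
    obtain ⟨s, hsB, hxs, hsW⟩ := hBb.exists_subset_of_mem_open hxV hW
    have hPs : P (C ∩ s) ≠ 0 := by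
      intro h0
      have : (x : Y) ∈ D := by
        rw [hD]
        exact Set.mem_biUnion (show s ∈ {s ∈ B | P (C ∩ s) = 0} from ⟨hsB, h0⟩) hxs
      exact x.2.2 this
    have hs' : C ∩ s ∈ B' := Or.inl ⟨s, hsB, rfl, hPs⟩
    rw [hK] at hs'
    obtain ⟨j, hj⟩ := hs'
    refine ⟨j, m, fun n hn => ?_⟩
    rw [hj]
    refine measure_mono_null ?_ hCD
    rintro y ⟨⟨hyC, hys⟩, hyG⟩
    by_contra hyD
    have hyC' : y ∈ C' := ⟨hyC, fun h => hyD ⟨hyC, h⟩⟩
    have : (⟨y, hyC'⟩ : C') ∈ (Subtype.val ⁻¹' W : Set C') ∩ U m := by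
      refine ⟨hsW hys, ?_⟩
      simp only [hU, Set.mem_iUnion, Set.mem_Ici, exists_prop, Set.mem_preimage]
      exact ⟨n, hn, hyG⟩
    rw [hVU] at this
    exact this

/-- The measure half. -/
theorem width_part {Y : Type} [MeasurableSpace Y] (P : Measure Y) [IsProbabilityMeasure P]
    (G : ℕ → ℕ → Set Y) (q : ℕ → ℝ≥0∞) (w : ℕ → ℕ) (hw : ∀ n, (1 - q n) ^ (w n) ≤ 2⁻¹)
    (hind : ∀ F : Finset (ℕ × ℕ), P (⋂ p ∈ F, (G p.1 p.2)ᶜ) = ∏ p ∈ F, (1 - q p.1))
    (K : Set Y) (hK : P K ≠ 0) :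
    ∃ m, ∀ n, m ≤ n → ∀ F : Finset ℕ, (∀ i ∈ F, P (K ∩ G n i) = 0) → F.card ≤ w n := by
  classical
  by_contra hcon
  push Not at hcon
  have key : ∀ k : ℕ, ∃ F : Finset (ℕ × ℕ), (∀ p ∈ F, P (K ∩ G p.1 p.2) = 0) ∧
      ∏ p ∈ F, (1 - q p.1) ≤ (2⁻¹ : ℝ≥0∞) ^ k := by
    intro k
    induction k with
    | zero => exact ⟨∅, by simp, by simp⟩
    | succ k ih =>
      obtain ⟨F, hF1, hF2⟩ := ih
      obtain ⟨n, hn, E, hE1, hE2⟩ := hcon (F.sup Prod.fst + 1)
      have hinj : Function.Injective (fun i : ℕ => ((n, i) : ℕ × ℕ)) := fun a b h => by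
        simpa using h
      set E' : Finset (ℕ × ℕ) := E.image (fun i : ℕ => ((n, i) : ℕ × ℕ)) with hE'
      have hdisj : Disjoint F E' := by
        rw [Finset.disjoint_left]
        intro p hp hpE
        rw [hE', Finset.mem_image] at hpE
        obtain ⟨i, -, rfl⟩ := hpE
        have h3 : n ≤ F.sup Prod.fst := Finset.le_sup (f := Prod.fst) hp
        omega
      refine ⟨F ∪ E', ?_, ?_⟩
      · intro p hp
        rcases Finset.mem_union.1 hp with hp | hp
        · exact hF1 p hp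
        · rw [hE', Finset.mem_image] at hp
          obtain ⟨i, hi, rfl⟩ := hp
          exact hE1 i hi
      · rw [Finset.prod_union hdisj, pow_succ]
        refine mul_le_mul' hF2 ?_
        rw [hE', Finset.prod_image (fun a _ b _ h => hinj h)]
        simp only [Finset.prod_const]
        calc (1 - q n) ^ E.card ≤ (1 - q n) ^ (w n) :=
              pow_le_pow_right_of_le_one' tsub_le_self hE2.le
          _ ≤ 2⁻¹ := hw n
  apply hK
  have hle : ∀ k : ℕ, P K ≤ (2⁻¹ : ℝ≥0∞) ^ k := by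
    intro k
    obtain ⟨F, hF1, hF2⟩ := key k
    calc P K ≤ P ((⋂ p ∈ F, (G p.1 p.2)ᶜ) ∪ ⋃ p ∈ F, (K ∩ G p.1 p.2)) := by
          apply measure_mono
          intro x hx
          by_cases h : ∃ p ∈ F, x ∈ G p.1 p.2
          · obtain ⟨p, hp, hxp⟩ := h
            exact Or.inr (Set.mem_biUnion hp ⟨hx, hxp⟩)
          · push Not at h
            exact Or.inl (Set.mem_iInter₂.2 fun p hp => h p hp)
      _ ≤ P (⋂ p ∈ F, (G p.1 p.2)ᶜ) + P (⋃ p ∈ F, (K ∩ G p.1 p.2)) := measure_union_le _ _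
      _ = ∏ p ∈ F, (1 - q p.1) + 0 := by
          rw [hind F]
          congr 1
          exact (measure_biUnion_null_iff F.countable_toSet).2 hF1
      _ ≤ (2⁻¹ : ℝ≥0∞) ^ k := by rw [add_zero]; exact hF2
  have hlim : Tendsto (fun k : ℕ => (2⁻¹ : ℝ≥0∞) ^ k) atTop (𝓝 0) :=
    ENNReal.tendsto_pow_atTop_nhds_zero_of_lt_one (by simp)
  exact le_antisymm (ge_of_tendsto' hlim hle) (zero_le)

/-- Bernoulli measure. -/
noncomputable def bern (n : ℕ) : Measure Bool :=
  ((2⁻¹ : ℝ≥0∞) ^ n) • Measure.dirac true + (1 - (2⁻¹ : ℝ≥0∞) ^ n) • Measure.dirac false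

theorem half_pow_le (n : ℕ) : (2⁻¹ : ℝ≥0∞) ^ n ≤ 1 := pow_le_one₀ (zero_le) (by simp)

instance (n : ℕ) : IsProbabilityMeasure (bern n) := by
  constructor
  simp [bern, add_tsub_cancel_of_le (half_pow_le n)]

theorem bern_true (n : ℕ) : bern n {true} = (2⁻¹ : ℝ≥0∞) ^ n := by
  simp [bern]

theorem bern_false (n : ℕ) : bern n {false} = 1 - (2⁻¹ : ℝ≥0∞) ^ n := by
  simp [bern]

/-- Independent measurable sets in the unit interval. -/
theorem exists_indep :
    ∃ T : I → (ℕ × ℕ → Bool), Measurable T ∧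
      (∀ n i, (volume : Measure I) {x | T x (n, i) = true} = (2⁻¹ : ℝ≥0∞) ^ n) ∧
      (∀ F : Finset (ℕ × ℕ), (volume : Measure I) (⋂ p ∈ F, {x | T x (p.1, p.2) = true}ᶜ)
        = ∏ p ∈ F, (1 - (2⁻¹ : ℝ≥0∞) ^ p.1)) := by
  obtain ⟨T, hT, hmap⟩ := MeasureTheory.Measure.exists_measurable_map_eq
    (Measure.infinitePi (fun p : ℕ × ℕ => bern p.1))
  refine ⟨T, hT, ?_, ?_⟩
  · intro n i
    have hs : MeasurableSet (Set.pi (({(n, i)} : Finset (ℕ × ℕ)) : Set (ℕ × ℕ))
        (fun _ => ({true} : Set Bool))) :=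
      MeasurableSet.pi (Finset.countable_toSet _) (fun _ _ => MeasurableSet.singleton _)
    have h1 := Measure.infinitePi_pi (fun p : ℕ × ℕ => bern p.1) (s := {(n, i)})
      (t := fun _ => ({true} : Set Bool)) (fun _ _ => MeasurableSet.singleton _)
    rw [← hmap, Measure.map_apply hT hs] at h1
    simp only [Finset.prod_singleton, bern_true] at h1
    rw [← h1]
    congr 1
    ext x
    simp
  · intro F
    have hs : MeasurableSet (Set.pi (F : Set (ℕ × ℕ))
        (fun _ => ({false} : Set Bool))) :=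
      MeasurableSet.pi (Finset.countable_toSet _) (fun _ _ => MeasurableSet.singleton _)
    have h1 := Measure.infinitePi_pi (fun p : ℕ × ℕ => bern p.1) (s := F)
      (t := fun _ => ({false} : Set Bool)) (fun _ _ => MeasurableSet.singleton _)
    rw [← hmap, Measure.map_apply hT hs] at h1
    simp only [bern_false] at h1
    rw [← h1]
    congr 1
    ext x
    simp

/-- Slaloms from a cofinal family of null sets of the unit interval. -/
theorem slalom_unit {ι : Type} (H : ι → Set I) (hH : ∀ i, (volume : Measure I) (H i) = 0)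
    (hcof : ∀ t : Set I, (volume : Measure I) t = 0 → ∃ i, t ⊆ H i) :
    ∃ (S : ι × ℕ × List ℕ → ℕ → Finset ℕ) (w : ℕ → ℕ), (∀ a k, (S a k).card ≤ w k) ∧
      ∀ f : ℕ → ℕ, ∃ a, ∀ k, f k ∈ S a k := by
  classical
  obtain ⟨T, hT, hT1, hT2⟩ := exists_indep
  set G : ℕ → ℕ → Set I := fun n i => {x | T x (n, i) = true} with hG
  have hw : ∀ n : ℕ, ∃ w : ℕ, (1 - (2⁻¹ : ℝ≥0∞) ^ n) ^ w ≤ 2⁻¹ := by
    intro n
    have hlt : 1 - (2⁻¹ : ℝ≥0∞) ^ n < 1 := by
      apply ENNReal.sub_lt_self ENNReal.one_ne_top one_ne_zero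
      exact pow_ne_zero _ (by simp)
    have h1 := (ENNReal.tendsto_pow_atTop_nhds_zero_of_lt_one hlt).eventually
      (Iic_mem_nhds (show (0 : ℝ≥0∞) < 2⁻¹ by simp))
    exact h1.exists
  choose w hw using hw
  have hnull : ∀ f : ℕ → ℕ, (volume : Measure I) {x | ∃ᶠ n in atTop, x ∈ G n (f n)} = 0 := by
    intro f
    have h1 : {x | ∃ᶠ n in atTop, x ∈ G n (f n)} = limsup (fun n => G n (f n)) atTop := by
      ext x
      rw [mem_limsup_iff_frequently_mem]
      rfl
    rw [h1]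
    apply measure_limsup_atTop_eq_zero
    have : ∀ n, (volume : Measure I) (G n (f n)) = (2⁻¹ : ℝ≥0∞) ^ n := fun n => hT1 n (f n)
    simp only [this]
    rw [ENNReal.tsum_geometric]
    simp
  -- the sets `K`
  have hbaire : ∀ i : ι, ∃ K : ℕ → Set I, (∀ j, (volume : Measure I) (K j) ≠ 0) ∧
      ∀ f : ℕ → ℕ, {x | ∃ᶠ n in atTop, x ∈ G n (f n)} ⊆ H i →
        ∃ j m, ∀ n, m ≤ n → (volume : Measure I) (K j ∩ G n (f n)) = 0 := by
    intro i
    have hp0 : PolishSpace I := inferInstance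
    have hb0 : BorelSpace I := inferInstance
    have hbe := hb0.measurable_eq
    obtain ⟨t', ht't, ht'c, ht'p⟩ := hT.exists_continuous
    have hborel : @BorelSpace I t' _ := by
      have h1 := borel_eq_borel_of_le (t := t') ht'p hp0 ht't
      refine @BorelSpace.mk I t' _ ?_
      rw [h1]
      exact hbe
    have hGo : ∀ n i, @IsOpen I t' (G n i) := by
      intro n i
      have hop : IsOpen {u : ℕ × ℕ → Bool | u (n, i) = true} := by
        have hc : Continuous (fun u : ℕ × ℕ → Bool => u (n, i)) := continuous_apply (n, i)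
        have h0 := (isOpen_discrete ({true} : Set Bool)).preimage hc
        exact h0
      exact @IsOpen.preimage I (ℕ × ℕ → Bool) t' _ T ht'c _ hop
    exact @baire_part I t' ht'p _ hborel volume _ G hGo (H i) (hH i)
  choose K hK1 hK2 using hbaire
  have hwidth : ∀ i j, ∃ m, ∀ n, m ≤ n → ∀ F : Finset ℕ,
      (∀ a ∈ F, (volume : Measure I) (K i j ∩ G n a) = 0) → F.card ≤ w n :=
    fun i j => width_part volume G (fun n => (2⁻¹ : ℝ≥0∞) ^ n) w hw hT2 (K i j) (hK1 i j)
  choose m hm using hwidth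
  let N : ι → ℕ → ℕ → Set ℕ := fun i j n => {a | (volume : Measure I) (K i j ∩ G n a) = 0}
  have hfin : ∀ i j n, m i j ≤ n → ∃ F : Finset ℕ, N i j n ⊆ F ∧ F.card ≤ w n := by
    intro i j n hn
    have hf : (N i j n).Finite := by
      by_contra hinf
      obtain ⟨F, hF1, hF2⟩ := Set.Infinite.exists_subset_card_eq hinf (w n + 1)
      have := hm i j n hn F (fun a ha => hF1 ha)
      omega
    refine ⟨hf.toFinset, by simp, hm i j n hn _ fun a ha => ?_⟩
    exact (hf.mem_toFinset.1 ha)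
  choose! F hF1 hF2 using hfin
  refine ⟨fun a n => if h : n < a.2.2.length then {a.2.2[n]} else
    if (F a.1 a.2.1 n).card ≤ w n then F a.1 a.2.1 n else ∅, fun n => w n + 1, ?_, ?_⟩
  · intro a n
    simp only
    split_ifs
    · simp
    · omega
    · simp
  · intro f
    obtain ⟨i, hi⟩ := hcof _ (hnull f)
    obtain ⟨j, m', hm'⟩ := hK2 i f hi
    refine ⟨⟨i, j, (List.range (max m' (m i j))).map f⟩, fun n => ?_⟩
    by_cases hn : n < max m' (m i j)
    · simp [hn]
    · have h1 : m' ≤ n := by omega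
      have h2 : m i j ≤ n := by omega
      simp only [List.length_map, List.length_range, dif_neg hn, if_pos (hF2 i j n h2)]
      exact hF1 i j n h2 (hm' n h1)

end Pool.Agent.Lib.MP_a78e1f_lc.H35
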