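import Pool.Agent.Lib.MP_a78e1f_lc.H35.Thin

/-!
# A small family of perfect sets such that every dense `G_δ` set contains one of them
-/

open Cardinal

namespace Pool.Agent.Lib.MP_a78e1f_lc.H35

/-- Lengths of the nodes of the perfect set. -/
def tlen (b w : ℕ → ℕ) : ℕ → ℕ
  | 0 => 0
  | k + 1 => b^[w k] (tlen b w k) + 1

/-- The level at which the open sets are approximated. -/
def mlev (b w : ℕ → ℕ) (k : ℕ) : ℕ := b^[w k] (tlen b w k)

open Classical in
/-- The code of the open set `G` at level `m`. -/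
noncomputable def codeSet (m : ℕ) (G : Set Cs) : (Fin m → Bool) → Bool :=
  fun t => decide (∀ x, Agr m x (ext0 t) → x ∈ G)

theorem chain {M w : ℕ} (l : ℕ → ℕ) (hl : Monotone l) (Γ : Finset ((Fin M → Bool) → Bool))
    (hval : ∀ c ∈ Γ, ∀ j < w, ∀ s, ∃ t, Agr (l j) t s ∧
      ∀ x, Agr (l (j + 1)) x t → c (res M x) = true)
    (hcard : Γ.card ≤ w) :
    ∀ s, ∃ t, Agr (l 0) t s ∧ ∀ x, Agr (l Γ.card) x t → ∀ c ∈ Γ, c (res M x) = true := by
  classical
  induction Γ using Finset.induction_on with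
  | empty => exact fun s => ⟨s, Agr.refl _ _, by simp⟩
  | insert c Γ hc ih =>
    intro s
    rw [Finset.card_insert_of_notMem hc] at hcard
    obtain ⟨t, ht1, ht2⟩ := ih (fun c' hc' => hval c' (Finset.mem_insert_of_mem hc'))
      (le_trans (Nat.le_succ _) hcard) s
    obtain ⟨u, hu1, hu2⟩ := hval c (Finset.mem_insert_self _ _) Γ.card (by omega) t
    refine ⟨u, (hu1.mono (hl (Nat.zero_le _))).trans ht1, ?_⟩
    rw [Finset.card_insert_of_notMem hc]
    intro x hx c' hc'
    rcases Finset.mem_insert.1 hc' with h | h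
    · rw [h]
      exact hu2 x hx
    · exact ht2 x ((hx.mono (hl (Nat.le_succ _))).trans hu1) c' h

theorem le_iter {b : ℕ → ℕ} (hb : ∀ n, n ≤ b n) (j n : ℕ) : n ≤ b^[j] n := by
  induction j with
  | zero => exact le_rfl
  | succ j ih =>
    rw [Function.iterate_succ_apply']
    exact ih.trans (hb _)

theorem iter_mono {b : ℕ → ℕ} (hb : ∀ n, n ≤ b n) (n : ℕ) : Monotone (fun j => b^[j] n) := by
  refine monotone_nat_of_le_succ fun j => ?_
  rw [Function.iterate_succ_apply']
  exact hb _

theorem tlen_mono {b w : ℕ → ℕ} (hb : ∀ n, n ≤ b n) : Monotone (tlen b w) := by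
  refine monotone_nat_of_le_succ fun k => ?_
  have := le_iter hb (w k) (tlen b w k)
  change tlen b w k ≤ b^[w k] (tlen b w k) + 1
  omega

theorem le_tlen {b w : ℕ → ℕ} (hb : ∀ n, n ≤ b n) (k : ℕ) : k ≤ tlen b w k := by
  induction k with
  | zero => exact Nat.zero_le _
  | succ k ih =>
    have := le_iter hb (w k) (tlen b w k)
    change k + 1 ≤ b^[w k] (tlen b w k) + 1
    omega

/-- Density with a bound: inside every basic open set of level `n` there is a basic open set of
level `b n` contained in `G n`. -/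
def DenseBd (b : ℕ → ℕ) (G : ℕ → Set Cs) : Prop :=
  ∀ n s, ∃ t, Agr n t s ∧ ∀ x, Agr (b n) x t → x ∈ G n

theorem exists_perfect (b w : ℕ → ℕ) (hb : ∀ n, n ≤ b n) (S : ℕ → Finset ℕ)
    (hS : ∀ k, (S k).card ≤ w k) :
    ∃ θ : Cs → Cs, Continuous θ ∧ Function.Injective θ ∧
      ∀ G : ℕ → Set Cs, Antitone G → DenseBd b G →
        (∀ k, enc _ (codeSet (mlev b w k) (G k)) ∈ S k) → ∀ y n, θ y ∈ G n := by
  classical
  let Γ : ∀ k, Finset ((Fin (mlev b w k) → Bool) → Bool) := fun k =>
    Finset.univ.filter fun c => enc _ c ∈ S k ∧ ∀ j < w k, ∀ s, ∃ t,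
      Agr (b^[j] (tlen b w k)) t s ∧
        ∀ x, Agr (b^[j + 1] (tlen b w k)) x t → c (res (mlev b w k) x) = true
  have hΓ : ∀ k, (Γ k).card ≤ w k := by
    intro k
    refine le_trans (Finset.card_le_card_of_injOn (enc _) ?_ ?_) (hS k)
    · intro γ hγ
      exact (Finset.mem_filter.1 hγ).2.1
    · exact (enc_injective _).injOn
  have hex : ∀ k s, ∃ t, Agr (tlen b w k) t s ∧ ∀ c ∈ Γ k, c (res (mlev b w k) t) = true := by
    intro k s
    obtain ⟨t, ht1, ht2⟩ := chain (w := w k) (fun j => b^[j] (tlen b w k))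
      (iter_mono hb (tlen b w k)) (Γ k) (fun c hc => (Finset.mem_filter.1 hc).2.2) (hΓ k) s
    exact ⟨t, ht1, ht2 t (Agr.refl _ _)⟩
  choose E hE1 hE2 using hex
  let step : ∀ k, ((Fin k → Bool) → Cs) → ((Fin (k + 1) → Bool) → Cs) := fun k P σ i =>
    if i = mlev b w k then σ (Fin.last k) else E k (P (Fin.init σ)) i
  let U : ∀ k : ℕ, (Fin k → Bool) → Cs := fun k =>
    Nat.rec (fun _ _ => false) (fun k P => step k P) k
  have hU : ∀ k, U (k + 1) = step k (U k) := fun k => rfl
  have hstep : ∀ k P σ, Agr (tlen b w k) (step k P σ) (P (Fin.init σ)) := by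
    intro k P σ i hi
    have h1 : i ≠ mlev b w k := by
      have := le_iter hb (w k) (tlen b w k)
      unfold mlev
      omega
    change (if i = mlev b w k then σ (Fin.last k) else E k (P (Fin.init σ)) i) = _
    rw [if_neg h1]
    exact hE1 k _ i hi
  obtain ⟨θ, hθc, hθ⟩ := scheme_limit (tlen b w) (le_tlen hb) (tlen_mono hb) U
    (fun k σ => by rw [hU k]; exact hstep k (U k) σ)
  refine ⟨θ, hθc, ?_, ?_⟩
  · intro y y' heq
    funext i
    have h : ∀ z, θ z (mlev b w i) = z i := by
      intro z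
      have h1 := hθ z (i + 1) (mlev b w i) (Nat.lt_succ_self _)
      rw [h1, hU i]
      change (if mlev b w i = mlev b w i then _ else _) = _
      rw [if_pos rfl]
      rfl
    rw [← h y, ← h y', heq]
  · intro G hG hd hc y n
    have hmem : codeSet (mlev b w n) (G n) ∈ Γ n := by
      refine Finset.mem_filter.2 ⟨Finset.mem_univ _, hc n, ?_⟩
      intro j hj s
      obtain ⟨t, ht1, ht2⟩ := hd (b^[j] (tlen b w n)) s
      refine ⟨t, ht1, ?_⟩
      intro x hx
      rw [codeSet, decide_eq_true_iff]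
      intro x' hx'
      have hle : n ≤ b^[j] (tlen b w n) := (le_tlen hb n).trans (le_iter hb _ _)
      refine hG hle (ht2 x' ?_)
      have h1 : Agr (mlev b w n) x' x := hx'.trans (agr_ext0_res _ _)
      have h2 : b^[j + 1] (tlen b w n) ≤ mlev b w n := iter_mono hb (tlen b w n) hj
      have h3 := (h1.mono h2).trans hx
      rwa [Function.iterate_succ_apply'] at h3
    have h1 : Agr (mlev b w n) (θ y) (E n (U n (res n y))) := by
      intro i hi
      have h2 := hθ y (n + 1) i (lt_of_lt_of_le hi (Nat.le_succ _))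
      rw [h2, hU n]
      change (if i = mlev b w n then _ else E n (U n (Fin.init (res (n + 1) y))) i) = _
      rw [if_neg (ne_of_lt hi)]
      rfl
    have h2 := hE2 n (U n (res n y)) _ hmem
    rw [← agr_iff_res.1 h1, codeSet, decide_eq_true_iff] at h2
    exact h2 _ (agr_ext0_res _ _).symm

end Pool.Agent.Lib.MP_a78e1f_lc.H35
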