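import Pool.Agent.Lib.MP_a78e1f_lc.H35.Comeager

/-!
# Extension of embeddings to dense `G_δ` sets and the main theorem for the Cantor space
-/

open Cardinal Topology

namespace Pool.Agent.Lib.MP_a78e1f_lc.H35

theorem exists_mem_agr {A : Set Cs} (hA : Dense A) (x : Cs) (m : ℕ) :
    ∃ a : A, Agr m (a : Cs) x := by
  have hop : IsOpen {y | Agr m y x} := (isClopen_agr m continuous_id continuous_const).isOpen
  obtain ⟨a, ha1, ha2⟩ := hA.inter_open_nonempty _ hop ⟨x, Agr.refl m x⟩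
  exact ⟨⟨a, ha2⟩, ha1⟩

/-- The domain of the extension. -/
def dom (A : Set Cs) (e : A → Cs) (n : ℕ) : Set Cs :=
  {x | ∃ m, (∀ a a' : A, Agr m (a : Cs) x → Agr m (a' : Cs) x → Agr n (e a) (e a')) ∧
    (∀ a a' : A, Agr m (a : Cs) x → Agr m (e a) (e a') → Agr n (a : Cs) (a' : Cs))}

theorem dom_antitone (A : Set Cs) (e : A → Cs) : Antitone (dom A e) := by
  rintro n n' h x ⟨m, h1, h2⟩
  exact ⟨m, fun a a' ha ha' => (h1 a a' ha ha').mono h, fun a a' ha ha' => (h2 a a' ha ha').mono h⟩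

theorem isOpen_dom (A : Set Cs) (e : A → Cs) (n : ℕ) : IsOpen (dom A e n) := by
  rw [isOpen_iff_agr]
  rintro x ⟨m, h1, h2⟩
  refine ⟨m, fun y hy => ⟨m, ?_, ?_⟩⟩
  · intro a a' ha ha'
    exact h1 a a' (ha.trans hy) (ha'.trans hy)
  · intro a a' ha ha'
    exact h2 a a' (ha.trans hy) ha'

theorem subset_dom {A : Set Cs} {e : A → Cs} (he : IsEmbedding e) (n : ℕ) : A ⊆ dom A e n := by
  intro x hx
  -- continuity of `e` at `x`
  have h1 : ∀ k, ∃ m, ∀ a : A, Agr m (a : Cs) x → Agr k (e a) (e ⟨x, hx⟩) := by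
    intro k
    have hop : IsOpen {a : A | Agr k (e a) (e ⟨x, hx⟩)} :=
      (isClopen_agr k he.continuous continuous_const).isOpen
    obtain ⟨V, hV, hVe⟩ := isOpen_induced_iff.1 hop
    have hxV : x ∈ V := by
      have : (⟨x, hx⟩ : A) ∈ Subtype.val ⁻¹' V := by
        rw [hVe]
        exact Agr.refl k _
      exact this
    obtain ⟨m, hm⟩ := isOpen_iff_agr.1 hV x hxV
    refine ⟨m, fun a ha => ?_⟩
    have : a ∈ Subtype.val ⁻¹' V := hm _ ha
    rw [hVe] at this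
    exact this
  have h2 : ∃ m, ∀ a : A, Agr m (e a) (e ⟨x, hx⟩) → Agr n (a : Cs) x := by
    have hop : IsOpen {a : A | Agr n (a : Cs) x} :=
      (isClopen_agr n continuous_subtype_val continuous_const).isOpen
    obtain ⟨V, hV, hVe⟩ := he.isOpen_iff.1 hop
    have hxV : e ⟨x, hx⟩ ∈ V := by
      have : (⟨x, hx⟩ : A) ∈ e ⁻¹' V := by
        rw [hVe]
        exact Agr.refl n _
      exact this
    obtain ⟨m, hm⟩ := isOpen_iff_agr.1 hV _ hxV
    refine ⟨m, fun a ha => ?_⟩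
    have : a ∈ e ⁻¹' V := hm _ ha
    rw [hVe] at this
    exact this
  obtain ⟨m2, hm2⟩ := h2
  obtain ⟨m1, hm1⟩ := h1 (max n m2)
  refine ⟨max m1 (max n m2), ?_, ?_⟩
  · intro a a' ha ha'
    have h3 := (hm1 a (ha.mono (le_max_left _ _))).mono (le_max_left n m2)
    have h4 := (hm1 a' (ha'.mono (le_max_left _ _))).mono (le_max_left n m2)
    exact h3.trans h4.symm
  · intro a a' ha haa
    have h3 := (hm1 a (ha.mono (le_max_left _ _))).mono (le_max_right n m2)
    have h4 : Agr m2 (e a') (e ⟨x, hx⟩) :=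
      (haa.mono (le_trans (le_max_right n m2) (le_max_right m1 _))).symm.trans h3
    have h5 := hm2 a' h4
    have h6 := hm2 a h3
    exact h6.trans h5.symm

theorem lavrentiev {A : Set Cs} (hA : Dense A) {e : A → Cs} (he : IsEmbedding e) :
    ∃ E : Cs → Cs, (∀ a : A, E a = e a) ∧
      (∀ x, (∀ n, x ∈ dom A e n) → ∀ n, ∃ m, ∀ x', (∀ n, x' ∈ dom A e n) → Agr m x' x →
        Agr n (E x') (E x)) ∧
      (∀ x x', (∀ n, x ∈ dom A e n) → (∀ n, x' ∈ dom A e n) → E x = E x' → x = x') := by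
  classical
  have h1 : ∀ x, (∀ n, x ∈ dom A e n) → ∃ v : Cs, ∀ n, ∃ m, ∀ a : A, Agr m (a : Cs) x →
      Agr n (e a) v := by
    intro x hx
    choose m hm1 hm2 using hx
    choose a ha using fun i : ℕ => exists_mem_agr hA x (m (i + 1))
    refine ⟨fun i => e (a i) i, fun n => ⟨(Finset.range n).sup fun i => m (i + 1), ?_⟩⟩
    intro a' ha' i hi
    have hle : m (i + 1) ≤ (Finset.range n).sup fun i => m (i + 1) :=
      Finset.le_sup (f := fun i => m (i + 1)) (Finset.mem_range.2 hi)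
    exact hm1 (i + 1) a' (a i) (ha'.mono hle) (ha i) i (Nat.lt_succ_self i)
  let E : Cs → Cs := fun x => if h : ∀ n, x ∈ dom A e n then (h1 x h).choose else x
  have hE : ∀ x, (∀ n, x ∈ dom A e n) → ∀ n, ∃ m, ∀ a : A, Agr m (a : Cs) x →
      Agr n (e a) (E x) := by
    intro x hx
    have : E x = (h1 x hx).choose := dif_pos hx
    rw [this]
    exact (h1 x hx).choose_spec
  refine ⟨E, ?_, ?_, ?_⟩
  · intro a
    refine eq_of_agr fun n => ?_
    obtain ⟨m, hm⟩ := hE a (fun n => subset_dom he n a.2) n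
    exact (hm a (Agr.refl _ _)).symm
  · intro x hx n
    obtain ⟨m, hm⟩ := hE x hx n
    refine ⟨m, fun x' hx' hxx => ?_⟩
    obtain ⟨m', hm'⟩ := hE x' hx' n
    obtain ⟨a, ha⟩ := exists_mem_agr hA x' (max m m')
    have h2 := hm a ((ha.mono (le_max_left _ _)).trans hxx)
    have h3 := hm' a (ha.mono (le_max_right _ _))
    exact h3.symm.trans h2
  · intro x x' hx hx' heq
    refine eq_of_agr fun n => ?_
    obtain ⟨m, -, hm⟩ := hx n
    obtain ⟨m1, hm1⟩ := hE x hx m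
    obtain ⟨m2, hm2⟩ := hE x' hx' m
    obtain ⟨a, ha⟩ := exists_mem_agr hA x (max m (max m1 n))
    obtain ⟨a', ha'⟩ := exists_mem_agr hA x' (max m2 n)
    have h3 : Agr m (e a) (E x) := hm1 a (ha.mono (by simp))
    have h4 : Agr m (e a') (E x') := hm2 a' (ha'.mono (by simp))
    rw [heq] at h3
    have h5 := hm a a' (ha.mono (by simp)) (h3.trans h4.symm)
    exact ((ha.mono (by simp)).symm.trans h5).trans (ha'.mono (by simp))

theorem exists_denseBd {G : ℕ → Set Cs} (hG : ∀ n, IsOpen (G n)) (hd : ∀ n, Dense (G n)) :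
    ∃ ψ : ℕ → ℕ, DenseBd ψ G := by
  have h1 : ∀ n (σ : Fin n → Bool), ∃ m t, Agr n t (ext0 σ) ∧ ∀ x, Agr m x t → x ∈ G n := by
    intro n σ
    have hop : IsOpen {y | Agr n y (ext0 σ)} :=
      (isClopen_agr n continuous_id continuous_const).isOpen
    obtain ⟨t, ht1, ht2⟩ := (hd n).inter_open_nonempty _ hop ⟨_, Agr.refl n _⟩
    obtain ⟨m, hm⟩ := isOpen_iff_agr.1 (hG n) t ht2
    exact ⟨m, t, ht1, hm⟩
  choose m t ht hm using h1
  refine ⟨fun n => Finset.univ.sup (m n), fun n s => ⟨t n (res n s), ?_, ?_⟩⟩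
  · exact (ht n (res n s)).trans (agr_ext0_res n s)
  · intro x hx
    exact hm n (res n s) x (hx.mono (Finset.le_sup (f := m n) (Finset.mem_univ _)))

theorem DenseBd.mono {ψ b : ℕ → ℕ} {G : ℕ → Set Cs} (h : DenseBd ψ G) (hb : ∀ n, ψ n ≤ b n) :
    DenseBd b G := by
  intro n s
  obtain ⟨t, ht1, ht2⟩ := h n s
  exact ⟨t, ht1, fun x hx => ht2 x (hx.mono (hb n))⟩

theorem exists_mod {g : Cs → Cs} (hg : Continuous g) (hinj : Function.Injective g) :
    ∃ m : ℕ → ℕ, ∀ b : ℕ → ℕ, (∀ n, m n ≤ b n) → Mod b g := by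
  choose m1 hm1 using exists_modulus hg
  choose m2 hm2 using exists_inv_modulus hg hinj
  refine ⟨fun n => max (m1 n) (m2 n), fun b hb => ⟨?_, ?_⟩⟩
  · intro n x y h
    exact hm1 n x y (h.mono (le_trans (le_max_left _ _) (hb n)))
  · intro n x y h
    exact hm2 n x y (h.mono (le_trans (le_max_right _ _) (hb n)))

/-- The bound given by a slalom. -/
def bnd (S : ℕ → Finset ℕ) (n : ℕ) : ℕ := n + (S n).sup id

theorem le_bnd (S : ℕ → Finset ℕ) (n : ℕ) : n ≤ bnd S n := Nat.le_add_right _ _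

theorem le_bnd_of_mem {S : ℕ → Finset ℕ} {n m : ℕ} (h : m ∈ S n) : m ≤ bnd S n :=
  le_trans (Finset.le_sup (f := id) h) (Nat.le_add_left _ _)

/-- **Main theorem for the Cantor space.** If the slaloms `S i` (of a fixed width `w`) capture all
functions, then for every set `Z` of fewer than continuum many points there is a set `A` of at
most `ℵ₀ + #ι` points that does not embed into `Z`. -/
theorem cantor_main {ι : Type} (S : ι → ℕ → Finset ℕ) (w : ℕ → ℕ)
    (hS : ∀ i k, (S i k).card ≤ w k) (hcap : ∀ f : ℕ → ℕ, ∃ i, ∀ k, f k ∈ S i k)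
    (Z : Set Cs) (hZ : #Z < 𝔠) :
    ∃ A : Set Cs, #A ≤ max ℵ₀ #ι ∧ ∀ e : A → Cs, IsEmbedding e → ∃ a, e a ∉ Z := by
  have hθ := fun i j => exists_perfect (bnd (S i)) w (le_bnd (S i)) (S j) (hS j)
  choose θ hθc hθi hθ using hθ
  have hx := fun i j => exists_escape (bnd (S i)) w (le_bnd (S i)) (S j) (hS j) Z hZ
  choose x hx using hx
  obtain ⟨D0, hD0c, hD0d⟩ := TopologicalSpace.exists_countable_dense Cs
  let F : ι × ι × ι × ι → Cs := fun p => θ p.1 p.2.1 (x p.2.2.1 p.2.2.2)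
  refine ⟨D0 ∪ Set.range F, ?_, ?_⟩
  · have h1 : #D0 ≤ ℵ₀ := Cardinal.le_aleph0_iff_set_countable.2 hD0c
    have h2 : #(Set.range F) ≤ max ℵ₀ #ι := by
      refine le_trans Cardinal.mk_range_le ?_
      have hm : ∀ c : Cardinal, c ≤ max ℵ₀ #ι → #ι * c ≤ max ℵ₀ #ι := by
        intro c hc
        calc #ι * c ≤ max ℵ₀ #ι * max ℵ₀ #ι := mul_le_mul' (le_max_right _ _) hc
          _ = max ℵ₀ #ι := Cardinal.mul_eq_self (le_max_left _ _)
      simp only [Cardinal.mk_prod, Cardinal.lift_id]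
      exact hm _ (hm _ (hm _ (le_max_right _ _)))
    calc #(D0 ∪ Set.range F : Set Cs) ≤ #D0 + #(Set.range F) := Cardinal.mk_union_le _ _
      _ ≤ max ℵ₀ #ι + max ℵ₀ #ι := add_le_add (h1.trans (le_max_left _ _)) h2
      _ = max ℵ₀ #ι := Cardinal.add_eq_self (le_max_left _ _)
  · set A : Set Cs := D0 ∪ Set.range F with hAdef
    intro e he
    have hA : Dense A := hD0d.mono Set.subset_union_left
    obtain ⟨E, hE1, hE2, hE3⟩ := lavrentiev hA he
    obtain ⟨ψ, hψ⟩ := exists_denseBd (isOpen_dom A e) (fun n => hA.mono (subset_dom he n))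
    obtain ⟨i, hi⟩ := hcap ψ
    have hψ' : DenseBd (bnd (S i)) (dom A e) := hψ.mono fun n => le_bnd_of_mem (hi n)
    obtain ⟨j, hj⟩ := hcap fun k => enc _ (codeSet (mlev (bnd (S i)) w k) (dom A e k))
    have hmem : ∀ y n, θ i j y ∈ dom A e n := hθ i j (dom A e) (dom_antitone A e) hψ' hj
    have hgc : Continuous (E ∘ θ i j) := by
      rw [continuous_iff_agr]
      intro y n
      obtain ⟨m, hm⟩ := hE2 (θ i j y) (hmem y) n
      obtain ⟨m', hm'⟩ := continuous_iff_agr.1 (hθc i j) y m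
      exact ⟨m', fun y' hy' => hm _ (hmem y') (hm' y' hy')⟩
    have hgi : Function.Injective (E ∘ θ i j) := fun y y' h =>
      hθi i j (hE3 _ _ (hmem y) (hmem y') h)
    obtain ⟨m, hm⟩ := exists_mod hgc hgi
    obtain ⟨k, hk⟩ := hcap m
    have hmod : Mod (bnd (S k)) (E ∘ θ i j) := hm _ fun n => le_bnd_of_mem (hk n)
    obtain ⟨l, hl⟩ := hcap fun r => enc _ (approx (bnd (S k) (lev (bnd (S k)) w r))
      (lev (bnd (S k)) w r) (E ∘ θ i j))
    have hcapt : Captured (bnd (S k)) w (S l) (E ∘ θ i j) := ⟨hmod, hl⟩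
    have hout := hx k l _ hcapt
    have ha : θ i j (x k l) ∈ A := Or.inr ⟨(i, j, k, l), rfl⟩
    refine ⟨⟨_, ha⟩, ?_⟩
    rw [← hE1 ⟨_, ha⟩]
    exact hout

end Pool.Agent.Lib.MP_a78e1f_lc.H35
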