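import Pool.Agent.Lib.MP_a78e1f_lc.H35.Extend

/-!
# Perfect Polish spaces
-/

open Cardinal Topology Set

namespace Pool.Agent.Lib.MP_a78e1f_lc.H35

/-- Separable metrizable spaces with fewer than continuum many points embed into the Cantor
space. -/
theorem small_embed {X : Type} [TopologicalSpace X] [TopologicalSpace.MetrizableSpace X]
    [TopologicalSpace.SeparableSpace X] [Nonempty X] (Z : Set X) (hZ : #Z < 𝔠) :
    ∃ ζ : Z → Cs, IsEmbedding ζ := by
  let _ := TopologicalSpace.metrizableSpaceMetric X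
  let p : ℕ → X := TopologicalSpace.denseSeq X
  have hp : DenseRange p := TopologicalSpace.denseRange_denseSeq X
  -- a real `t` such that no distance is of the form `t + q`
  obtain ⟨t, ht⟩ : ∃ t : ℝ, ∀ (q : ℚ) (n : ℕ) (z : Z), dist (z : X) (p n) ≠ t + q := by
    by_contra hcon
    push Not at hcon
    choose q n z h using hcon
    let f : ℝ → ℚ × ℕ × Z := fun t => (q t, n t, z t)
    have hf : Function.Injective f := by
      intro s t hst
      have h1 : q s = q t := congrArg Prod.fst hst
      have h2 : n s = n t := congrArg (fun a => a.2.1) hst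
      have h3 : z s = z t := congrArg (fun a => a.2.2) hst
      have h4 := h s
      have h5 := h t
      rw [h1, h2, h3, h5] at h4
      linarith
    have h1 := Cardinal.mk_le_of_injective hf
    have h2 : #(ℚ × ℕ × Z) < 𝔠 := by
      have hq : #ℚ < 𝔠 := (Cardinal.mk_le_aleph0).trans_lt Cardinal.aleph0_lt_continuum
      have hn : #ℕ < 𝔠 := (Cardinal.mk_le_aleph0).trans_lt Cardinal.aleph0_lt_continuum
      simp only [Cardinal.mk_prod, Cardinal.lift_id]
      exact Cardinal.mul_lt_of_lt Cardinal.aleph0_le_continuum hq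
        (Cardinal.mul_lt_of_lt Cardinal.aleph0_le_continuum hn hZ)
    rw [Cardinal.mk_real] at h1
    exact absurd h2 (not_lt.2 h1)
  let ξ : Z → (ℕ × ℚ → Bool) := fun z a => decide (dist (z : X) (p a.1) < t + a.2)
  have hξc : Continuous ξ := by
    refine continuous_pi fun a => ?_
    have hcl : IsClopen {z : Z | dist (z : X) (p a.1) < t + a.2} := by
      constructor
      · have : {z : Z | dist (z : X) (p a.1) < t + a.2} =
            {z : Z | dist (z : X) (p a.1) ≤ t + a.2} := by
          ext z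
          simp only [Set.mem_ofPred_eq]
          constructor
          · exact fun h => le_of_lt h
          · exact fun h => lt_of_le_of_ne h (ht _ _ _)
        rw [this]
        exact isClosed_le (by fun_prop) continuous_const
      · exact isOpen_lt (by fun_prop) continuous_const
    have h2 : (fun z : Z => ξ z a) = fun z => decide (z ∈ {z : Z | dist (z : X) (p a.1) < t + a.2}) :=
      rfl
    rw [h2]
    refine continuous_def.2 fun s _ => ?_
    have h3 : ∀ b : Bool, IsOpen ((fun z : Z => decide (z ∈ {z : Z | dist (z : X) (p a.1) <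
        t + a.2})) ⁻¹' {b}) := by
      intro b
      cases b with
      | false =>
        have : ((fun z : Z => decide (z ∈ {z : Z | dist (z : X) (p a.1) < t + a.2})) ⁻¹' {false})
            = {z : Z | dist (z : X) (p a.1) < t + a.2}ᶜ := by
          ext z
          simp
        rw [this]
        exact hcl.compl.isOpen
      | true =>
        have : ((fun z : Z => decide (z ∈ {z : Z | dist (z : X) (p a.1) < t + a.2})) ⁻¹' {true})
            = {z : Z | dist (z : X) (p a.1) < t + a.2} := by
          ext z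
          simp
        rw [this]
        exact hcl.isOpen
    rw [← Set.biUnion_preimage_singleton]
    exact isOpen_biUnion fun b _ => h3 b
  have hξi : IsInducing ξ := by
    rw [Topology.isInducing_iff_nhds]
    intro z
    refine le_antisymm hξc.continuousAt.tendsto.le_comap ?_
    rw [Metric.nhds_basis_ball.ge_iff]
    intro ε hε
    obtain ⟨n, hn⟩ := hp.exists_dist_lt (z : X) (by linarith : 0 < ε / 3)
    obtain ⟨q, hq1, hq2⟩ := exists_rat_btwn (show dist (z : X) (p n) - t < ε / 2 - t by linarith)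
    rw [Filter.mem_comap]
    refine ⟨{u | u (n, q) = true}, ?_, ?_⟩
    · have hop : IsOpen {u : ℕ × ℚ → Bool | u (n, q) = true} := by
        have hc : Continuous (fun u : ℕ × ℚ → Bool => u (n, q)) := continuous_apply (n, q)
        have h0 := (isOpen_discrete ({true} : Set Bool)).preimage hc
        exact h0
      refine hop.mem_nhds ?_
      simp only [Set.mem_ofPred_eq, ξ, decide_eq_true_iff]
      linarith
    · intro z' hz'
      simp only [Set.mem_preimage, Set.mem_ofPred_eq, ξ, decide_eq_true_iff] at hz'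
      rw [Metric.mem_ball]
      have h1 : dist z' z = dist (z' : X) (z : X) := rfl
      rw [h1]
      have h2 := dist_triangle (z' : X) (p n) (z : X)
      rw [dist_comm (p n) (z : X)] at h2
      linarith
  have hξe : IsEmbedding ξ := hξi.isEmbedding
  let eqv : ℕ × ℚ ≃ ℕ := Denumerable.eqv (ℕ × ℚ)
  let H : (ℕ × ℚ → Bool) ≃ₜ (ℕ → Bool) := Homeomorph.piCongrLeft (Y := fun _ => Bool) eqv
  exact ⟨fun z => H (ξ z), H.isEmbedding.comp hξe⟩

/-- `κ`-dense sets. -/
def KDense (κ : Cardinal.{0}) {X : Type} [TopologicalSpace X] (A : Set X) : Prop :=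
  ∀ U : Set X, IsOpen U → U.Nonempty → #(A ∩ U : Set X) = κ

/-- The universality axiom `U_κ(X)`: some `κ`-dense set `Z` contains a homeomorphic copy of every
set of `κ` points of `X`. -/
def UAx (κ : Cardinal.{0}) (X : Type) [TopologicalSpace X] : Prop :=
  ∃ Z : Set X, KDense κ Z ∧
    ∀ A : Set X, #A = κ → ∃ B : Set X, B ⊆ Z ∧ Nonempty (A ≃ₜ B)

theorem not_UAx {ι : Type} (S : ι → ℕ → Finset ℕ) (w : ℕ → ℕ)
    (hS : ∀ i k, (S i k).card ≤ w k) (hcap : ∀ f : ℕ → ℕ, ∃ i, ∀ k, f k ∈ S i k)
    (κ : Cardinal.{0}) (hκ0 : ℵ₀ ≤ κ) (hι : #ι ≤ κ) (hκ : κ < 𝔠)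
    (X : Type) [TopologicalSpace X] [PolishSpace X] [PerfectSpace X] [Nonempty X] :
    ¬ UAx κ X := by
  rintro ⟨Z, hZd, hZu⟩
  have hZc : #Z = κ := by
    have := hZd Set.univ isOpen_univ Set.univ_nonempty
    rwa [Set.inter_univ] at this
  obtain ⟨ζ, hζ⟩ := small_embed Z (hZc ▸ hκ)
  have hrange : #(Set.range ζ) < 𝔠 := lt_of_le_of_lt Cardinal.mk_range_le (hZc ▸ hκ)
  obtain ⟨A, hAc, hA⟩ := cantor_main S w hS hcap (Set.range ζ) hrange
  obtain ⟨C, hC⟩ := Cardinal.le_mk_iff_exists_set.1
    (show κ ≤ #Cs by simpa [Cs] using hκ.le)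
  set A1 : Set Cs := A ∪ C with hA1
  have hA1c : #A1 = κ := by
    apply le_antisymm
    · calc #A1 ≤ #A + #C := Cardinal.mk_union_le _ _
        _ ≤ κ + κ := add_le_add (hAc.trans (max_le hκ0 hι)) hC.le
        _ = κ := Cardinal.add_eq_self hκ0
    · rw [← hC]
      exact Cardinal.mk_le_mk_of_subset Set.subset_union_right
  -- a copy of the Cantor space in `X`
  obtain ⟨j, hj, hji⟩ : ∃ j : Cs → X, Continuous j ∧ Function.Injective j := by
    let _ := TopologicalSpace.upgradeIsCompletelyMetrizable X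
    have hperf : Perfect (Set.univ : Set X) := ⟨isClosed_univ, PerfectSpace.univ_preperfect⟩
    obtain ⟨f, -, hf1, hf2⟩ := hperf.exists_nat_bool_injection Set.univ_nonempty
    exact ⟨f, hf1, hf2⟩
  have hje : IsEmbedding j := (hj.isClosedEmbedding hji).isEmbedding
  have hA2c : #(j '' A1) = κ := by rw [Cardinal.mk_image_eq hji, hA1c]
  obtain ⟨B, hBZ, ⟨h⟩⟩ := hZu (j '' A1) hA2c
  let e1 : A → (j '' A1 : Set X) := fun a => ⟨j a, ⟨a, Or.inl a.2, rfl⟩⟩
  have he1 : IsEmbedding e1 := by
    have h1 : IsEmbedding (fun a : A => j a) := hje.comp IsEmbedding.subtypeVal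
    exact h1.codRestrict (j '' A1) (fun a => ⟨a, Or.inl a.2, rfl⟩)
  have he2 : IsEmbedding (Set.inclusion hBZ) := IsEmbedding.inclusion hBZ
  obtain ⟨a, ha⟩ := hA (fun a => ζ (Set.inclusion hBZ (h (e1 a))))
    (hζ.comp (he2.comp (h.isEmbedding.comp he1)))
  exact ha ⟨_, rfl⟩

end Pool.Agent.Lib.MP_a78e1f_lc.H35
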