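import Pool.Agent.Lib.MP_a78e1f_lc.H35.Agree

/-!
# Thin families of injective continuous maps miss small sets at a common point
-/

open Cardinal

namespace Pool.Agent.Lib.MP_a78e1f_lc.H35

/-- A fixed injection of a countable type into `ℕ`. -/
noncomputable def enc (α : Type) [Countable α] : α → ℕ := (exists_injective_nat α).choose

theorem enc_injective (α : Type) [Countable α] : Function.Injective (enc α) :=
  (exists_injective_nat α).choose_spec

/-- Approximation of `g` : the first `L` digits of the value at the points of level `m`. -/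
def approx (m L : ℕ) (g : Cs → Cs) : (Fin m → Bool) → (Fin L → Bool) :=
  fun s => res L (g (ext0 s))

/-- `b` bounds the modulus of continuity of `g` and of its inverse. -/
structure Mod (b : ℕ → ℕ) (g : Cs → Cs) : Prop where
  fwd : ∀ n x y, Agr (b n) x y → Agr n (g x) (g y)
  bwd : ∀ n x y, Agr (b n) (g x) (g y) → Agr n x y

/-- Number of digits chosen freely at stage `k`. -/
def free (w : ℕ → ℕ) (k : ℕ) : ℕ := 2 * w k + (k + 1) + 1

/-- Lengths of the nodes. -/
def len (b w : ℕ → ℕ) : ℕ → ℕ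
  | 0 => 0
  | k + 1 => b (b (len b w k + free w k))

/-- The level at which the maps are approximated at stage `k`. -/
def lev (b w : ℕ → ℕ) (k : ℕ) : ℕ := b (len b w k + free w k)

theorem greedy {I T : Type*} [DecidableEq I] [Fintype T] (R : I → T → I → T → Prop) (D : ℕ)
    (hsymm : ∀ i a j b, R i a j b → R j b i a)
    (hR : ∀ i a j, i ≠ j → ∃ B : Finset T, B.card ≤ D ∧ ∀ b, R i a j b → b ∈ B)
    (s : Finset I) (hs : D * s.card < Fintype.card T) :
    ∃ f : I → T, ∀ i ∈ s, ∀ j ∈ s, i ≠ j → ¬ R i (f i) j (f j) := by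
  classical
  induction s using Finset.induction_on with
  | empty =>
    have : Nonempty T := Fintype.card_pos_iff.1 (lt_of_le_of_lt (Nat.zero_le _) hs)
    exact ⟨fun _ => Classical.arbitrary T, by simp⟩
  | insert j s hj ih =>
    rw [Finset.card_insert_of_notMem hj] at hs
    obtain ⟨f, hf⟩ := ih (lt_of_le_of_lt (Nat.mul_le_mul_left D (Nat.le_succ _)) hs)
    have hB : ∀ i ∈ s, ∃ B : Finset T, B.card ≤ D ∧ ∀ b, R i (f i) j b → b ∈ B := by
      intro i hi
      exact hR i (f i) j (fun h => hj (h ▸ hi))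
    choose! B hB1 hB2 using hB
    have hcard : (s.biUnion B).card < Fintype.card T := by
      calc (s.biUnion B).card ≤ ∑ i ∈ s, (B i).card := Finset.card_biUnion_le
        _ ≤ ∑ _i ∈ s, D := Finset.sum_le_sum hB1
        _ = s.card * D := by simp
        _ = D * s.card := Nat.mul_comm _ _
        _ ≤ D * (s.card + 1) := Nat.mul_le_mul_left D (Nat.le_succ _)
        _ < Fintype.card T := hs
    obtain ⟨b, hb⟩ : ∃ b, b ∉ s.biUnion B := by
      by_contra hcon
      push Not at hcon
      have : s.biUnion B = Finset.univ := Finset.eq_univ_iff_forall.2 hcon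
      rw [this, Finset.card_univ] at hcard
      exact lt_irrefl _ hcard
    refine ⟨Function.update f j b, ?_⟩
    have hnb : ∀ i ∈ s, ¬ R i (f i) j b := by
      intro i hi hr
      exact hb (Finset.mem_biUnion.2 ⟨i, hi, hB2 i hi b hr⟩)
    intro i hi i' hi' hne
    by_cases hij : i = j
    · have hi'' : i' ∈ s := (Finset.mem_insert.1 hi').resolve_left (fun h => hne (hij.trans h.symm))
      have hij' : i' ≠ j := fun h => hne (hij.trans h.symm)
      rw [hij, Function.update_self, Function.update_of_ne hij']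
      exact fun hr => hnb i' hi'' (hsymm _ _ _ _ hr)
    · have his : i ∈ s := (Finset.mem_insert.1 hi).resolve_left hij
      rw [Function.update_of_ne hij]
      by_cases hij' : i' = j
      · rw [hij', Function.update_self]
        exact hnb i his
      · have his' : i' ∈ s := (Finset.mem_insert.1 hi').resolve_left hij'
        rw [Function.update_of_ne hij']
        exact hf i his i' his' hne

theorem card_bound (w k : ℕ) : w * w * 2 ^ (k + 1) < 2 ^ (2 * w + (k + 1) + 1) := by
  have h : w < 2 ^ w := Nat.lt_two_pow_self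
  have h2 : w * w < 2 ^ w * 2 ^ w := Nat.mul_lt_mul'' h h
  have h3 : 2 ^ (2 * w + (k + 1) + 1) = 2 ^ w * 2 ^ w * 2 ^ (k + 1) * 2 := by
    rw [pow_succ, pow_add, two_mul, pow_add]
  rw [h3]
  have h4 : 0 < 2 ^ (k + 1) := by positivity
  calc w * w * 2 ^ (k + 1) < 2 ^ w * 2 ^ w * 2 ^ (k + 1) := Nat.mul_lt_mul_of_pos_right h2 h4
    _ ≤ 2 ^ w * 2 ^ w * 2 ^ (k + 1) * 2 := Nat.le_mul_of_pos_right _ (by norm_num)

/-- An option for a child node. -/
def opt (n e : ℕ) (p : Cs) (t : Fin e → Bool) : Cs := fun i =>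
  if i < n then p i else if h : i - n < e then t ⟨i - n, h⟩ else false

theorem agr_opt (n e : ℕ) (p : Cs) (t : Fin e → Bool) : Agr n (opt n e p t) p := by
  intro i hi
  simp [opt, hi]

theorem opt_inj {n e : ℕ} {p : Cs} {t t' : Fin e → Bool}
    (h : Agr (n + e) (opt n e p t) (opt n e p t')) : t = t' := by
  funext i
  have := h (n + i) (by omega)
  have h1 : ¬ (n + (i : ℕ) < n) := by omega
  have h2 : n + (i : ℕ) - n < e := by omega
  simpa [opt, h1, h2] using this

/-- One stage of the construction. -/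
theorem stage {n q L m k w : ℕ} (hq : q = n + (2 * w + (k + 1) + 1)) (hqm : q ≤ m)
    (Γ : Finset ((Fin m → Bool) → (Fin L → Bool))) (hΓ : Γ.card ≤ w)
    (hval : ∀ γ ∈ Γ, ∀ s s', γ s = γ s' → Agr q (ext0 s) (ext0 s'))
    (P : (Fin k → Bool) → Cs) :
    ∃ V : (Fin (k + 1) → Bool) → Cs, (∀ σ, Agr n (V σ) (P (Fin.init σ))) ∧
      ∀ σ σ', σ ≠ σ' → ∀ γ ∈ Γ, ∀ γ' ∈ Γ, γ (res m (V σ)) ≠ γ' (res m (V σ')) := by
  classical
  set e := 2 * w + (k + 1) + 1 with he
  let O : (Fin (k + 1) → Bool) → (Fin e → Bool) → Cs := fun σ t => opt n e (P (Fin.init σ)) t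
  let R : (Fin (k + 1) → Bool) → (Fin e → Bool) → (Fin (k + 1) → Bool) → (Fin e → Bool) → Prop :=
    fun σ t σ' t' => ∃ γ ∈ Γ, ∃ γ' ∈ Γ, γ (res m (O σ t)) = γ' (res m (O σ' t'))
  have hsymm : ∀ i a j b, R i a j b → R j b i a := by
    rintro i a j b ⟨γ, hγ, γ', hγ', h⟩
    exact ⟨γ', hγ', γ, hγ, h.symm⟩
  have hR : ∀ i a j, i ≠ j → ∃ B : Finset (Fin e → Bool), B.card ≤ w * w ∧
      ∀ b, R i a j b → b ∈ B := by
    intro i a j _
    let c : ((Fin m → Bool) → (Fin L → Bool)) × ((Fin m → Bool) → (Fin L → Bool)) →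
        (Fin e → Bool) := fun p =>
      if h : ∃ t, p.1 (res m (O i a)) = p.2 (res m (O j t)) then h.choose else fun _ => false
    refine ⟨(Γ ×ˢ Γ).image c, ?_, ?_⟩
    · calc ((Γ ×ˢ Γ).image c).card ≤ (Γ ×ˢ Γ).card := Finset.card_image_le
        _ = Γ.card * Γ.card := Finset.card_product _ _
        _ ≤ w * w := Nat.mul_le_mul hΓ hΓ
    · rintro b ⟨γ, hγ, γ', hγ', h⟩
      refine Finset.mem_image.2 ⟨(γ, γ'), Finset.mem_product.2 ⟨hγ, hγ'⟩, ?_⟩
      have hex : ∃ t, γ (res m (O i a)) = γ' (res m (O j t)) := ⟨b, h⟩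
      have hc : c (γ, γ') = hex.choose := dif_pos hex
      rw [hc]
      have h1 := hex.choose_spec
      have h2 : γ' (res m (O j hex.choose)) = γ' (res m (O j b)) := h1.symm.trans h
      have h3 := hval γ' hγ' _ _ h2
      have h4 : Agr q (O j hex.choose) (O j b) :=
        ((agr_ext0_res m _).mono hqm).symm.trans (h3.trans ((agr_ext0_res m _).mono hqm))
      rw [hq] at h4
      exact opt_inj h4
  have hcard : w * w * (Finset.univ : Finset (Fin (k + 1) → Bool)).card <
      Fintype.card (Fin e → Bool) := by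
    simp only [Finset.card_univ, Fintype.card_pi, Fintype.card_bool, Finset.prod_const,
      Fintype.card_fin]
    exact card_bound w k
  obtain ⟨f, hf⟩ := greedy R (w * w) hsymm hR Finset.univ hcard
  refine ⟨fun σ => O σ (f σ), fun σ => agr_opt _ _ _ _, ?_⟩
  intro σ σ' hne γ hγ γ' hγ' heq
  exact hf σ (Finset.mem_univ _) σ' (Finset.mem_univ _) hne ⟨γ, hγ, γ', hγ', heq⟩

theorem len_mono {b w : ℕ → ℕ} (hb : ∀ n, n ≤ b n) : Monotone (len b w) := by
  refine monotone_nat_of_le_succ fun k => ?_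
  have h1 := hb (len b w k + free w k)
  have h2 := hb (b (len b w k + free w k))
  change len b w k ≤ b (b (len b w k + free w k))
  omega

theorem le_len {b w : ℕ → ℕ} (hb : ∀ n, n ≤ b n) (k : ℕ) : k ≤ len b w k := by
  induction k with
  | zero => exact Nat.zero_le _
  | succ k ih =>
    have h1 := hb (len b w k + free w k)
    have h2 := hb (b (len b w k + free w k))
    change k + 1 ≤ b (b (len b w k + free w k))
    have h3 : 1 ≤ free w k := by unfold free; omega
    omega

/-- The class of maps captured by the modulus `b` and the slalom `S`. -/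
structure Captured (b w : ℕ → ℕ) (S : ℕ → Finset ℕ) (g : Cs → Cs) : Prop where
  mod : Mod b g
  slalom : ∀ k, enc _ (approx (b (lev b w k)) (lev b w k) g) ∈ S k

theorem exists_scheme (b w : ℕ → ℕ) (hb : ∀ n, n ≤ b n) (S : ℕ → Finset ℕ)
    (hS : ∀ k, (S k).card ≤ w k) :
    ∃ X : Cs → Cs, ∀ y y', y ≠ y' → ∀ g g', Captured b w S g → Captured b w S g' →
      g (X y) ≠ g' (X y') := by
  classical
  let Γ : ∀ k, Finset ((Fin (b (lev b w k)) → Bool) → (Fin (lev b w k) → Bool)) := fun k =>
    Finset.univ.filter fun γ => enc _ γ ∈ S k ∧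
      ∀ s s', γ s = γ s' → Agr (len b w k + free w k) (ext0 s) (ext0 s')
  have hΓ : ∀ k, (Γ k).card ≤ w k := by
    intro k
    refine le_trans (Finset.card_le_card_of_injOn (enc _) ?_ ?_) (hS k)
    · intro γ hγ
      exact (Finset.mem_filter.1 hγ).2.1
    · exact (enc_injective _).injOn
  have hstep : ∀ k (P : (Fin k → Bool) → Cs), ∃ V : (Fin (k + 1) → Bool) → Cs,
      (∀ σ, Agr (len b w k) (V σ) (P (Fin.init σ))) ∧
      ∀ σ σ', σ ≠ σ' → ∀ γ ∈ Γ k, ∀ γ' ∈ Γ k,
        γ (res (b (lev b w k)) (V σ)) ≠ γ' (res (b (lev b w k)) (V σ')) := by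
    intro k P
    refine stage (q := len b w k + free w k) (w := w k) rfl ?_ (Γ k) (hΓ k) ?_ P
    · exact le_trans (hb _) (hb _)
    · intro γ hγ
      exact (Finset.mem_filter.1 hγ).2.2
  choose step hstep1 hstep2 using hstep
  let U : ∀ k : ℕ, (Fin k → Bool) → Cs := fun k =>
    Nat.rec (fun _ _ => false) (fun k P => step k P) k
  have hU : ∀ k, U (k + 1) = step k (U k) := fun k => rfl
  obtain ⟨X, -, hX⟩ := scheme_limit (len b w) (le_len hb) (len_mono hb) U
    (fun k σ => by rw [hU k]; exact hstep1 k (U k) σ)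
  refine ⟨X, ?_⟩
  intro y y' hne g g' hg hg' heq
  obtain ⟨i, hi⟩ := Function.ne_iff.1 hne
  have hres : res (i + 1) y ≠ res (i + 1) y' := by
    intro h
    exact hi (congrFun h ⟨i, Nat.lt_succ_self i⟩)
  have hmem : ∀ g, Captured b w S g → approx (b (lev b w i)) (lev b w i) g ∈ Γ i := by
    intro g hg
    refine Finset.mem_filter.2 ⟨Finset.mem_univ _, hg.slalom i, ?_⟩
    intro s s' hss
    exact hg.mod.bwd _ _ _ (agr_iff_res.2 hss)
  have happ : ∀ g, Captured b w S g → ∀ z, approx (b (lev b w i)) (lev b w i) g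
      (res (b (lev b w i)) (U (i + 1) (res (i + 1) z))) = res (lev b w i) (g (X z)) := by
    intro g hg z
    have h1 : Agr (b (lev b w i)) (X z) (U (i + 1) (res (i + 1) z)) := hX z (i + 1)
    have h2 := (agr_ext0_res (b (lev b w i)) (U (i + 1) (res (i + 1) z))).trans h1.symm
    exact agr_iff_res.1 (hg.mod.fwd _ _ _ h2)
  have h1 := hstep2 i (U i) _ _ hres _ (hmem g hg) _ (hmem g' hg')
  apply h1
  rw [← hU i, happ g hg y, happ g' hg' y', heq]

/-- A small set is missed by all captured maps at a common point. -/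
theorem exists_escape (b w : ℕ → ℕ) (hb : ∀ n, n ≤ b n) (S : ℕ → Finset ℕ)
    (hS : ∀ k, (S k).card ≤ w k) (Z : Set Cs) (hZ : #Z < 𝔠) :
    ∃ x : Cs, ∀ g, Captured b w S g → g x ∉ Z := by
  obtain ⟨X, hX⟩ := exists_scheme b w hb S hS
  by_contra hcon
  push Not at hcon
  choose g hg hgZ using hcon
  let f : Cs → Z := fun y => ⟨g (X y) (X y), hgZ (X y)⟩
  have hf : Function.Injective f := by
    intro y y' h
    by_contra hne
    exact hX y y' hne _ _ (hg (X y)) (hg (X y')) (congrArg Subtype.val h)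
  have := Cardinal.mk_le_of_injective hf
  have hc : #Cs = 𝔠 := by simp [Cs]
  rw [hc] at this
  exact absurd hZ (not_lt.2 this)

end Pool.Agent.Lib.MP_a78e1f_lc.H35
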